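import Pool.Agent.MP_09973c_nt.H58.SpecT
import Pool.Agent.MP_807c24_nt.H84.Box

/-!
One radical step of an expansion; Siegel's lemma and Liouville's inequality.
-/

set_option autoImplicit false

namespace Pool.Agent.MP_09973c_nt.H14

open Polynomial Finset Pool.Agent.MP_09973c_nt.H58

/-- The binomial series of exponent `1 / r`. -/
theorem binom {r : ℕ} (hr : 0 < r) : ∃ a : ℕ → ℚ, a 0 = 1 ∧ (∀ k, |a k| ≤ 1) ∧
    (∀ k, ∃ z : ℤ, (r : ℚ) ^ k * k.factorial * a k = z) ∧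
    ∀ N, (X : ℚ[X]) ^ N ∣ (∑ k ∈ range N, C (a k) * X ^ k) ^ r - (1 + X) := by
  have hr' : (1 : ℚ) ≤ r := by exact_mod_cast hr
  have hrec : ∀ k : ℕ, ((k : ℚ) + 1) * Ring.choose (1 / r : ℚ) (k + 1) =
      Ring.choose (1 / r : ℚ) k * (1 / r - k) := fun k => by
    have := Ring.choose_smul_choose (1 / r : ℚ) (Nat.le_succ k)
    simpa [Ring.choose_one_right] using this
  refine ⟨fun k => Ring.choose (1 / r : ℚ) k, Ring.choose_zero_right _, fun k => ?_, fun k => ?_,
    fun N => ?_⟩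
  · induction k with
    | zero => simp
    | succ k ih =>
      have h0 : (0 : ℚ) < k + 1 := by positivity
      have h1 : |1 / (r : ℚ) - k| ≤ k + 1 := by
        have h2 : 1 / (r : ℚ) ≤ 1 := (div_le_one (by linarith)).2 hr'
        have h3 : 0 ≤ 1 / (r : ℚ) := by positivity
        have h4 : (0 : ℚ) ≤ k := by positivity
        rw [abs_le]; constructor <;> linarith
      have h2 := congrArg abs (hrec k)
      rw [abs_mul, abs_mul, abs_of_pos h0] at h2
      refine le_of_mul_le_mul_left ?_ h0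
      rw [h2, mul_comm ((k : ℚ) + 1)]
      exact mul_le_mul ih h1 (abs_nonneg _) zero_le_one
  · induction k with
    | zero => exact ⟨1, by simp⟩
    | succ k ih =>
      obtain ⟨z, hz⟩ := ih
      refine ⟨z * (1 - k * r), ?_⟩
      have h0 : (r : ℚ) ≠ 0 := by linarith
      have h1 : (r : ℚ) ^ (k + 1) * (k + 1).factorial * Ring.choose (1 / r : ℚ) (k + 1) =
          (r : ℚ) ^ k * k.factorial * r * (((k : ℚ) + 1) * Ring.choose (1 / r : ℚ) (k + 1)) := by
        rw [Nat.factorial_succ]; push_cast; ring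
      dsimp only at hz ⊢
      rw [h1, hrec]
      push_cast
      rw [← hz]
      field_simp
  · have hp : ∀ n : ℕ, PowerSeries.binomialSeries ℚ (1 / r : ℚ) ^ n =
        PowerSeries.binomialSeries ℚ (n * (1 / r) : ℚ) := fun n => by
      induction n with
      | zero => simp
      | succ n ih => rw [pow_succ, ih, ← PowerSeries.binomialSeries_add]; push_cast; ring_nf
    have h1 : PowerSeries.binomialSeries ℚ (1 / r : ℚ) ^ r = 1 + PowerSeries.X := by
      rw [hp, mul_one_div_cancel (by linarith)]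
      simpa using PowerSeries.binomialSeries_nat (R := ℚ) (A := ℚ) 1
    have h2 : (PowerSeries.X : PowerSeries ℚ) ^ N ∣
        ((∑ k ∈ range N, C (Ring.choose (1 / r : ℚ) k) * X ^ k : ℚ[X]) : PowerSeries ℚ) -
          PowerSeries.binomialSeries ℚ (1 / r : ℚ) := by
      rw [PowerSeries.X_pow_dvd_iff]
      intro m hm
      simp [hm]
    have h3 := h2.trans (sub_dvd_pow_sub_pow _ _ r)
    rw [h1, PowerSeries.X_pow_dvd_iff] at h3
    rw [X_pow_dvd_iff]
    intro m hm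
    have := h3 m hm
    rw [← Polynomial.coe_pow, ← Polynomial.coe_one, ← Polynomial.coe_X, ← Polynomial.coe_add,
      ← Polynomial.coe_sub, Polynomial.coeff_coe] at this
    exact this

theorem norm_pow_sub {F : Type} [NormedField F] {x y : F} {M : ℝ} (hM : 1 ≤ M) (hx : ‖x‖ ≤ M)
    (hy : ‖y‖ ≤ M) (s : ℕ) : ‖x ^ s - y ^ s‖ ≤ s * M ^ s * ‖x - y‖ := by
  induction s with
  | zero => simp
  | succ s ih =>
    have h1 : x ^ (s + 1) - y ^ (s + 1) = (x ^ s - y ^ s) * x + y ^ s * (x - y) := by ring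
    have h2 : ‖y‖ ^ s ≤ M ^ s * M :=
      (pow_le_pow_left₀ (norm_nonneg _) hy s).trans (le_mul_of_one_le_right (by positivity) hM)
    have h3 := mul_le_mul ih hx (norm_nonneg _) (by positivity)
    have h4 := mul_le_mul_of_nonneg_right h2 (norm_nonneg (x - y))
    rw [h1]
    refine (norm_add_le _ _).trans ?_
    rw [norm_mul, norm_mul, norm_pow]
    push_cast
    rw [pow_succ]
    linarith

theorem map_eq_iff {g : Gal} {f : Qb[X]} :
    (∀ n, g (f.coeff n) = f.coeff n) ↔ f.map (g : Qb →+* Qb) = f := by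
  simp [Polynomial.ext_iff]

theorem Sz_rat {x : ℚ} {d : ℕ} {z : ℤ} (h : (d : ℚ) * x = z) (h1 : |x| ≤ 1) : Sz (x : Qb) d 1 := by
  refine ⟨?_, fun g => ?_⟩
  · have : (d : Qb) * x = z := by exact_mod_cast congrArg (fun y : ℚ => (y : Qb)) h
    rw [this]; exact isIntegral_intCast z
  · rw [map_ratCast, show ‖(x : Qb)‖ = ‖(x : ℂ)‖ from rfl, Complex.norm_ratCast]
    exact_mod_cast h1

theorem ex : ExStmt := by
  intro r s c hr
  obtain ⟨dc, hdc, Hc, hHc, hc⟩ := exists_Sz c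
  obtain ⟨a, ha0, ha1, ha2, ha3⟩ := binom hr
  obtain ⟨K, hK⟩ : ∃ K : ℕ, K = r + s + dc + ⌈Hc⌉₊ + 8 := ⟨_, rfl⟩
  refine ⟨K * (7 * r + 5), fun G m N n ϖ z z' lam hm hN hn hlam hG hX hz' hsm => ?_⟩
  obtain ⟨f, d, hd, hdl, hf, hf0, hfG, hz⟩ := hX
  -- numerics
  obtain ⟨Y, hY⟩ : ∃ Y : ℝ, Y = Real.exp (lam + 1) := ⟨_, rfl⟩
  set E := Real.exp lam with hE
  have hE1 : 1 ≤ E := Real.one_le_exp hlam
  have hEY : 2 * E ≤ Y := by
    rw [hY, Real.exp_add, mul_comm]
    exact mul_le_mul_of_nonneg_left (by linarith [Real.add_one_le_exp (1 : ℝ)]) (by linarith)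
  have hY2 : 2 ≤ Y := by linarith
  have hdE : (d : ℝ) ≤ E := (Real.log_le_iff_le_exp (by exact_mod_cast hd)).1 hdl
  obtain ⟨Z, hZ⟩ : ∃ Z : ℝ, Z = Y ^ K := ⟨_, rfl⟩
  have hKZ : (K : ℝ) ≤ Z := by
    rw [hZ]
    refine le_trans ?_ (pow_le_pow_left₀ zero_le_two hY2 K)
    exact_mod_cast Nat.lt_two_pow_self.le
  have hK' : (K : ℝ) = r + s + dc + ⌈Hc⌉₊ + 8 := by rw [hK]; push_cast; ring
  have hc1 := Nat.le_ceil Hc
  have hr0 : (0 : ℝ) ≤ r := by positivity
  have hs0 : (0 : ℝ) ≤ s := by positivity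
  have hd0 : (0 : ℝ) ≤ dc := by positivity
  have hZ8 : 8 ≤ Z := by linarith
  have hZ1 : 1 ≤ Z := by linarith
  have hYs : Y ^ s ≤ Z := by rw [hZ]; exact pow_le_pow_right₀ (by linarith) (by omega)
  have hYZ : Y ≤ Z := by
    rw [hZ]; exact le_self_pow₀ (by linarith) (by omega)
  have hEs : E ^ s ≤ Z := (pow_le_pow_left₀ (by linarith) (by linarith) s).trans hYs
  have hds : (d : ℝ) ^ s ≤ Z := (pow_le_pow_left₀ (by positivity) hdE s).trans hEs
  obtain ⟨V, hV⟩ : ∃ V : ℝ, V = Z ^ (N ^ 2) := ⟨_, rfl⟩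
  have hNN : N ≤ N ^ 2 := Nat.le_self_pow two_ne_zero N
  have hZN : Z ^ N ≤ V := by rw [hV]; exact pow_le_pow_right₀ hZ1 hNN
  have hZV : Z ≤ V := (le_self_pow₀ hZ1 (by omega)).trans hZN
  have hV1 : 1 ≤ V := by linarith
  have hNZ : (N : ℝ) ≤ Z ^ N := by
    refine le_trans ?_ (pow_le_pow_left₀ zero_le_two (by linarith : 2 ≤ Z) N)
    exact_mod_cast Nat.lt_two_pow_self.le
  have hNf : (N.factorial : ℝ) ≤ V := by
    rw [hV, sq, pow_mul]
    refine le_trans ?_ (pow_le_pow_left₀ (by positivity) hNZ N)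
    exact_mod_cast Nat.factorial_le_pow N
  have hexp : Real.exp (((K * (7 * r + 5) : ℕ) : ℝ) * N ^ 2 * (lam + 1)) = V ^ (7 * r + 5) := by
    rw [hV, hZ, hY, ← pow_mul, ← pow_mul, ← Real.exp_nat_mul]
    congr 1; push_cast; ring
  have hVp : ∀ k, k ≤ 7 * r + 5 → V ^ k ≤ V ^ (7 * r + 5) := fun k hk => pow_le_pow_right₀ hV1 hk
  rw [hexp] at hsm
  have hϖ0 := norm_nonneg ϖ
  have hϖ5 : ‖ϖ‖ * V ^ 5 ≤ 1 := (mul_le_mul_of_nonneg_left (hVp 5 (by omega)) hϖ0).trans hsm
  have hϖ1 : ‖ϖ‖ ≤ 1 := (le_mul_of_one_le_right hϖ0 (one_le_pow₀ hV1)).trans hϖ5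
  have hϖN : ‖ϖ‖ ^ N ≤ 1 := pow_le_one₀ hϖ0 hϖ1
  -- the polynomials
  set f0 := f.coeff 0 with hf0'
  have hu : f0 * f0 ^ (m - 1) = 1 := by rw [← pow_succ', Nat.sub_add_cancel hm, hf0]
  let e : Qb[X] := C ((f0 ^ (m - 1)) ^ s) * (f ^ s + C c * X ^ n) - 1
  have he : PSz e (d ^ s * dc) (Z ^ 2) := by
    have h1 : Sz ((f0 ^ (m - 1)) ^ s) 1 1 := by
      simpa using ((Sz.root hm hf0).pow (m - 1)).pow s
    have h2 := (((PSz.C h1).mul (((hf.pow s).mono (dvd_mul_right _ dc) le_rfl).add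
      (((PSz.C hc).mul (PSz.X_pow n)).mono (d' := d ^ s * dc) (by simp) le_rfl))).mono
        (d' := d ^ s * dc) (by simp) le_rfl).sub (PSz.one.mono (one_dvd _) le_rfl)
    refine h2.mono dvd_rfl ?_
    have := mul_le_mul_of_nonneg_right hZ8 (by linarith : 0 ≤ Z)
    rw [sq]
    linarith
  have he0 : X ∣ e := by
    rw [X_dvd_iff]
    have : n ≠ 0 := by omega
    simp only [e, coeff_sub, coeff_C_mul, coeff_add, coeff_X_pow, if_neg this.symm, coeff_one_zero,
      coeff_zero_eq_eval_zero (f ^ s), eval_pow, ← coeff_zero_eq_eval_zero, ← hf0', mul_zero,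
      add_zero, ← mul_pow, mul_comm (f0 ^ (m - 1)), hu, one_pow, sub_self]
  let bb : Qb[X] := ∑ k ∈ range N, C (a k : Qb) * e ^ k
  have hbb : PSz bb (r ^ N * N.factorial * (d ^ s * dc) ^ N) (V ^ 3) := by
    have h1 := PSz.sum (d := r ^ N * N.factorial * (d ^ s * dc) ^ N) (range N)
      (f := fun k => C (a k : Qb) * e ^ k) (B := fun _ => V ^ 2) fun k hk => by
        have hk := (mem_range.1 hk).le
        obtain ⟨w, hw⟩ := ha2 k
        refine ((PSz.C (Sz_rat (d := r ^ k * k.factorial) (by push_cast; exact hw) (ha1 k))).mul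
          (he.pow k)).mono (mul_dvd_mul (mul_dvd_mul (pow_dvd_pow _ hk)
            (Nat.factorial_dvd_factorial hk)) (pow_dvd_pow _ hk)) ?_
        rw [one_mul, ← pow_mul, mul_comm, pow_mul]
        exact pow_le_pow_left₀ (by positivity) ((pow_le_pow_right₀ hZ1 hk).trans hZN) 2
    refine h1.mono dvd_rfl ?_
    rw [sum_const, card_range, nsmul_eq_mul, pow_succ' V 2]
    exact mul_le_mul_of_nonneg_right (hNZ.trans hZN) (by positivity)
  have hdv : X ^ N ∣ bb ^ r - (1 + e) := by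
    refine (pow_dvd_pow_of_dvd he0 N).trans ?_
    have := map_dvd (aeval (R := ℚ) e) (ha3 N)
    simpa [bb, map_sum, Polynomial.algebraMap_apply] using this
  have hb0 : bb.coeff 0 = 1 := by
    rw [coeff_zero_eq_eval_zero, eval_finsetSum, sum_eq_single 0]
    · simp [ha0]
    · intro k _ hk
      rw [eval_mul, eval_pow, ← coeff_zero_eq_eval_zero e, X_dvd_iff.1 he0, zero_pow hk, mul_zero]
    · intro h; exact absurd (mem_range.2 hN) h
  have hb1 : 1 / 2 ≤ ‖bb.eval ϖ‖ := by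
    have h1 := norm_eval_le_of_coeff (bb - 1) hϖ1 (V := 1) fun k hk => by
      obtain rfl : k = 0 := by omega
      simp [hb0]
    have h2 := (hbb.sub (PSz.one.mono (one_dvd _) le_rfl)).l1_le
    have h3 := norm_sub_norm_le (1 : Qb) (bb.eval ϖ)
    rw [eval_sub, eval_one, pow_one, norm_sub_rev] at h1
    rw [norm_one] at h3
    have h4 : 2 * (V ^ 3 + 1) ≤ V ^ 5 := by
      have h5 : 1 ≤ V ^ 3 := one_le_pow₀ hV1
      have h6 : 4 ≤ V ^ 2 := le_trans (by norm_num) (pow_le_pow_left₀ zero_le_two (by linarith) 2)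
      have h7 := mul_le_mul_of_nonneg_right h6 (zero_le_one.trans h5)
      rw [show V ^ 5 = V ^ 2 * V ^ 3 by ring]
      linarith
    have h5 := mul_le_mul_of_nonneg_right h2 hϖ0
    have h6 := mul_le_mul_of_nonneg_right h4 hϖ0
    linarith
  obtain ⟨η, hη⟩ := IsAlgClosed.exists_pow_nat_eq (f0 ^ s) hr
  have hη1 : η ^ (r * m) = 1 := by rw [pow_mul, hη, ← pow_mul, mul_comm, pow_mul, hf0, one_pow]
  obtain ⟨ω, hω, hcl⟩ := rt_close goodF_Qb hr z' (η * bb.eval ϖ)
  have hωη : (ω * η) ^ (r * m) = 1 := by rw [mul_pow, hη1, pow_mul, hω, one_pow, one_mul]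
  have hrm : 0 < r * m := Nat.mul_pos hr hm
  have herr : ‖z' ^ r - (η * bb.eval ϖ) ^ r‖ ≤ V ^ (3 * r + 5) * ‖ϖ‖ ^ N := by
    have h1 : z' ^ r - (η * bb.eval ϖ) ^ r =
        (z ^ s - f.eval ϖ ^ s) - f0 ^ s * (bb ^ r - (1 + e)).eval ϖ := by
      have h0 : f0 ^ s * (f0 ^ (m - 1)) ^ s = 1 := by rw [← mul_pow, hu, one_pow]
      simp only [e, hz', mul_pow, hη, eval_sub, eval_add, eval_mul, eval_pow, eval_C, eval_X,
        eval_one]
      linear_combination (-(eval ϖ f ^ s + c * ϖ ^ n)) * h0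
    have h2 : ‖f.eval ϖ‖ ≤ E := (norm_eval_le f hϖ1).trans hf.l1_le
    have h3 : ‖z‖ ≤ Y := by
      have := norm_sub_norm_le z (f.eval ϖ)
      have := mul_le_of_le_one_right (zero_le_one.trans hE1) hϖN
      linarith
    have h4 := norm_pow_sub (by linarith : 1 ≤ Y) h3 (by linarith : ‖f.eval ϖ‖ ≤ Y) s
    have h5 := norm_eval_le_of_coeff (bb ^ r - (1 + e)) hϖ1 (V := N) (X_pow_dvd_iff.1 hdv)
    have h6 : l1 (bb ^ r - (1 + e)) ≤ (V ^ 3) ^ r + (1 + Z ^ 2) := by
      rw [sub_eq_add_neg]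
      refine (l1_add _ _).trans (add_le_add (hbb.pow r).l1_le ?_)
      rw [l1_neg]
      exact (l1_add _ _).trans (add_le_add PSz.one.l1_le he.l1_le)
    have h7 : s * Y ^ s * ‖z - f.eval ϖ‖ ≤ V ^ 3 * ‖ϖ‖ ^ N := by
      calc s * Y ^ s * ‖z - f.eval ϖ‖ ≤ V * V * (V * ‖ϖ‖ ^ N) :=
            mul_le_mul (mul_le_mul (by linarith) (by linarith) (by positivity) (by linarith))
              (hz.trans (mul_le_mul_of_nonneg_right (by linarith) (by positivity)))
              (norm_nonneg _) (by positivity)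
        _ = _ := by ring
    have h8 : V ^ 3 + ((V ^ 3) ^ r + (1 + Z ^ 2)) ≤ V ^ (3 * r + 5) := by
      have a1 : V ^ 3 ≤ V ^ (3 * r + 4) := pow_le_pow_right₀ hV1 (by omega)
      have a2 : (V ^ 3) ^ r ≤ V ^ (3 * r + 4) := by
        rw [← pow_mul]; exact pow_le_pow_right₀ hV1 (by omega)
      have a3 : 1 ≤ V ^ (3 * r + 4) := one_le_pow₀ hV1
      have a4 : Z ^ 2 ≤ V ^ (3 * r + 4) :=
        (pow_le_pow_left₀ (by linarith) hZV 2).trans (pow_le_pow_right₀ hV1 (by omega))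
      have a5 := mul_le_mul_of_nonneg_left (hZ8.trans hZV) (zero_le_one.trans a3)
      rw [pow_succ V (3 * r + 4)]
      linarith
    rw [h1]
    refine (norm_sub_le _ _).trans ?_
    rw [norm_mul, norm_pow, norm_root hm hf0, one_pow, one_mul]
    have h9 := mul_le_mul_of_nonneg_right h6 (pow_nonneg hϖ0 N)
    have h10 := mul_le_mul_of_nonneg_right h8 (pow_nonneg hϖ0 N)
    linarith
  refine ⟨C (ω * η) * bb, r ^ N * N.factorial * (d ^ s * dc) ^ N, by positivity, ?_, ?_, ?_,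
    fun g hg => map_eq_iff.2 ?_, ?_⟩
  · rw [Real.log_le_iff_le_exp (by positivity), hexp]
    refine le_trans ?_ (hVp 4 (by omega))
    push_cast
    have a1 : (r : ℝ) ^ N ≤ V := (pow_le_pow_left₀ hr0 (by linarith) N).trans hZN
    have a2 : ((d : ℝ) ^ s * dc) ^ N ≤ V * V := by
      refine (pow_le_pow_left₀ (by positivity) (mul_le_mul hds (by linarith : (dc : ℝ) ≤ Z) hd0
        (by linarith)) N).trans ?_
      rw [mul_pow]
      exact mul_le_mul hZN hZN (by positivity) (by linarith)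
    calc (r : ℝ) ^ N * N.factorial * ((d : ℝ) ^ s * dc) ^ N ≤ V * V * (V * V) :=
          mul_le_mul (mul_le_mul a1 hNf (by positivity) (by linarith)) a2 (by positivity)
            (by positivity)
      _ = V ^ 4 := by ring
  · rw [hexp]
    refine ((PSz.C (Sz.root hrm hωη)).mul hbb).mono (by simp) ?_
    rw [one_mul]
    exact hVp 3 (by omega)
  · rw [coeff_C_mul, hb0, mul_one, hωη]
  · have h1 : f.map (g : Qb →+* Qb) = f := map_eq_iff.1 (hfG g hg)
    have h2 : e.map (g : Qb →+* Qb) = e := by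
      simp [e, Polynomial.map_sub, Polynomial.map_mul, Polynomial.map_add, Polynomial.map_pow, h1,
        (hG g hg).1, hf0', hfG g hg 0]
    have h3 := (hG g hg).2 _ hωη
    simp only [bb, Polynomial.map_mul, Polynomial.map_sum, Polynomial.map_pow, h2, map_C,
      RingHom.coe_coe, h3, map_ratCast]
  · rw [hexp, eval_mul, eval_C, mul_assoc]
    have h1 : (1 / 2 : ℝ) ^ (r - 1) ≤ max ‖z'‖ ‖η * bb.eval ϖ‖ ^ (r - 1) := by
      refine pow_le_pow_left₀ (by norm_num) (le_trans ?_ (le_max_right _ _)) _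
      rwa [norm_mul, norm_root hrm hη1, one_mul]
    have h2 := (mul_le_mul_of_nonneg_left h1 (norm_nonneg _)).trans
      (hcl.trans (mul_le_mul_of_nonneg_left herr (by positivity)))
    have h3 : (2 : ℝ) ^ (r - 1) * (4 * (r : ℝ) ^ 3) ^ (r - 1) ≤ V ^ (4 * r) := by
      rw [← mul_pow, pow_mul]
      refine le_trans (pow_le_pow_left₀ (by positivity) ?_ _)
        (pow_le_pow_right₀ (one_le_pow₀ hV1) (Nat.sub_le r 1))
      have := pow_le_pow_left₀ hr0 (by linarith : (r : ℝ) ≤ V) 3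
      rw [pow_succ' V 3, ← mul_assoc]
      exact mul_le_mul (by linarith) this (by positivity) (by linarith)
    calc ‖z' - ω * (η * bb.eval ϖ)‖
        = 2 ^ (r - 1) * (‖z' - ω * (η * bb.eval ϖ)‖ * (1 / 2) ^ (r - 1)) := by
          rw [mul_left_comm ((2 : ℝ) ^ (r - 1)), ← mul_pow]; norm_num
      _ ≤ 2 ^ (r - 1) * ((4 * (r : ℝ) ^ 3) ^ (r - 1) * (V ^ (3 * r + 5) * ‖ϖ‖ ^ N)) :=
          mul_le_mul_of_nonneg_left h2 (by positivity)
      _ ≤ V ^ (4 * r) * (V ^ (3 * r + 5) * ‖ϖ‖ ^ N) := by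
          rw [← mul_assoc]; exact mul_le_mul_of_nonneg_right h3 (by positivity)
      _ = _ := by ring

theorem low_part {f : Qb[X]} {ϖ α : Qb} {E : ℝ} (N : ℕ) (hϖ : ‖ϖ‖ ≤ 1) (hf : l1 f ≤ E)
    (hα : ‖α - f.eval ϖ‖ ≤ E * ‖ϖ‖ ^ N) :
    ‖∑ a : Fin N, f.coeff a * ϖ ^ (a : ℕ)‖ ≤ E ∧
      ‖α - ∑ a : Fin N, f.coeff a * ϖ ^ (a : ℕ)‖ ≤ 3 * E * ‖ϖ‖ ^ N := by
  have h1 : l1 (∑ a ∈ range N, monomial a (f.coeff a)) ≤ E := by
    refine (l1_sum _ _).trans ?_
    simp only [l1_monomial]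
    exact (sum_le_l1 f _).trans hf
  have h2 : (∑ a ∈ range N, monomial a (f.coeff a)).eval ϖ =
      ∑ a : Fin N, f.coeff a * ϖ ^ (a : ℕ) := by
    rw [eval_finsetSum, ← Fin.sum_univ_eq_sum_range (fun a => eval ϖ (monomial a (f.coeff a)))]
    simp
  have h3 := norm_eval_le_of_coeff (f - ∑ a ∈ range N, monomial a (f.coeff a)) hϖ (V := N)
    fun n hn => by simp [coeff_monomial, hn]
  have h4 : l1 (f - ∑ a ∈ range N, monomial a (f.coeff a)) ≤ 2 * E := by
    rw [sub_eq_add_neg]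
    refine (l1_add _ _).trans ?_
    rw [l1_neg]; linarith
  rw [eval_sub, h2] at h3
  refine ⟨h2 ▸ (norm_eval_le _ hϖ).trans h1, ?_⟩
  have h5 := norm_sub_le_norm_sub_add_norm_sub α (f.eval ϖ)
    (∑ a : Fin N, f.coeff a * ϖ ^ (a : ℕ))
  have h6 := mul_le_mul_of_nonneg_right h4 (pow_nonneg (norm_nonneg ϖ) N)
  linarith

theorem rl0 : RL0Stmt := by
  intro ι _ G H N N' d dz ϖ ϖ' π z α β f f' lam η hG hH hι hcard hlam hη hn hd hdl hdz hdzl hϖ hϖ'
    hall hsm
  classical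
  obtain ⟨γ, hγ⟩ := exists_avg_top hG
  set E := Real.exp lam with hE
  have hE2 : 2 ≤ E := by linarith [Real.add_one_le_exp lam]
  have hEk : ∀ k : ℕ, Real.exp (k * lam) = E ^ k := fun k => Real.exp_nat_mul lam k
  have hnE : (Fintype.card ι : ℝ) ≤ E := (Real.log_le_iff_le_exp (by exact_mod_cast hι)).1 hn
  have hdE : (d : ℝ) ≤ E := (Real.log_le_iff_le_exp (by exact_mod_cast hd)).1 hdl
  have hdz' : (dz : ℝ) ≤ Real.exp η := (Real.log_le_iff_le_exp (by exact_mod_cast hdz)).1 hdzl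
  let w : Fin N → Fin N' → ι → Qb := fun a b i => (d * (f i).coeff a) * (d * (f' i).coeff b)
  have hw : ∀ a b i (g : Gal), ‖g (w a b i)‖ ≤ E ^ 4 := fun a b i g => by
    have h1 := ((hall i).2.1.coeff a).2 g
    have h2 := ((hall i).2.2.1.coeff b).2 g
    simp only [w, map_mul, map_natCast, norm_mul, norm_natCast_Qb]
    calc _ ≤ E * E * (E * E) :=
          mul_le_mul (mul_le_mul hdE h1 (norm_nonneg _) (by linarith))
            (mul_le_mul hdE h2 (norm_nonneg _) (by linarith)) (by positivity) (by positivity)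
      _ = _ := by ring
  obtain ⟨B, hB⟩ : ∃ B : ℕ, B = ⌈4 * E ^ 5⌉₊ + 1 := ⟨_, rfl⟩
  have hE5 : 32 ≤ E ^ 5 := le_trans (by norm_num) (pow_le_pow_left₀ zero_le_two hE2 5)
  have hB1 : 4 * E ^ 5 < B := by
    rw [hB]; push_cast; linarith [Nat.le_ceil (4 * E ^ 5)]
  have hB2 : (B : ℝ) ≤ E ^ 10 := by
    have := Nat.ceil_lt_add_one (show 0 ≤ 4 * E ^ 5 by positivity)
    have h1 := mul_le_mul_of_nonneg_right hE5 (by linarith : 0 ≤ E ^ 5)
    rw [hB, show E ^ 10 = E ^ 5 * E ^ 5 by ring]; push_cast; linarith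
  have hB0 : 0 < B := by omega
  obtain ⟨c, hc0, hcB, hc⟩ := MP_807c24_nt.H84.box ι (Fin G.index × Fin N × Fin N' × Bool)
    (fun k i => if k.2.2.2 then ((γ k.1 (w k.2.1 k.2.2.1 i) : Qb) : ℂ).re
      else ((γ k.1 (w k.2.1 k.2.2.1 i) : Qb) : ℂ).im) (E ^ 5) B (B ^ 2) (by positivity)
    (fun k => by
      refine (sum_le_card_nsmul _ _ (E ^ 4) fun i _ => ?_).trans ?_
      · split_ifs
        · exact (Complex.abs_re_le_norm _).trans (hw _ _ _ _)
        · exact (Complex.abs_im_le_norm _).trans (hw _ _ _ _)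
      · rw [nsmul_eq_mul, pow_succ' E 4]
        exact mul_le_mul_of_nonneg_right hnE (by positivity))
    (by
      rw [← pow_mul]
      refine lt_of_le_of_lt (Nat.pow_le_pow_right hB0 (le_trans (le_of_eq ?_) hcard))
        (Nat.pow_lt_pow_left (Nat.lt_succ_self B) hι.ne')
      simp only [Fintype.card_prod, Fintype.card_fin, Fintype.card_bool]
      ring)
  have hcR : ∀ i, |(c i : ℝ)| ≤ E ^ 10 := fun i => le_trans (by exact_mod_cast hcB i) hB2
  have hhalf : 2 * E ^ 5 * B / ((B ^ 2 : ℕ) : ℝ) < 1 / 2 := by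
    have : (0 : ℝ) < B := by exact_mod_cast hB0
    push_cast
    rw [div_lt_iff₀ (by positivity)]
    have := mul_lt_mul_of_pos_right hB1 this
    linarith
  have hzero : ∀ (a : Fin N) (b : Fin N'), ∑ i, (c i : Qb) * ((f i).coeff a * (f' i).coeff b) = 0 := by
    intro a b
    have h1 : ∑ i, (c i : Qb) * w a b i = 0 := by
      by_contra h0
      obtain ⟨g, hg⟩ := exists_one_le (IsIntegral.sum _ fun i _ =>
        (isIntegral_intCast (c i)).mul (((hall i).2.1.1 a).mul ((hall i).2.2.1.1 b))) h0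
      obtain ⟨j, hj, -⟩ := hγ.2 g (Subgroup.mem_top g)
      have h2 : ∀ i, g (w a b i) = γ j (w a b i) := fun i => by
        have h3 := (hall i).2.2.2.1 _ hj
        have h4 : ((γ j)⁻¹ * g) (w a b i) = w a b i := by
          simp only [w, map_mul, map_natCast, (h3 a).1, (h3 b).2]
        rw [← h4, ← AlgEquiv.mul_apply (γ j), mul_inv_cancel_left, h4]
      have h5 := hc (j, a, b, true)
      have h6 := hc (j, a, b, false)
      have h7 := Complex.norm_le_abs_re_add_abs_im ((g (∑ i, (c i : Qb) * w a b i) : Qb) : ℂ)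
      have h8 : ((g (∑ i, (c i : Qb) * w a b i) : Qb) : ℂ) =
          ∑ i, (c i : ℂ) * ((γ j (w a b i) : Qb) : ℂ) := by
        rw [map_sum]
        push_cast
        exact sum_congr rfl fun i _ => by rw [map_mul, map_intCast, h2]; push_cast; rfl
      have h9 : ‖((g (∑ i, (c i : Qb) * w a b i) : Qb) : ℂ)‖ = ‖g (∑ i, (c i : Qb) * w a b i)‖ := rfl
      rw [h9, h8, Complex.re_sum, Complex.im_sum] at h7
      simp only [Complex.mul_re, Complex.mul_im, Complex.intCast_re, Complex.intCast_im, zero_mul,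
        sub_zero, add_zero] at h7
      simp only [if_true, Bool.false_eq_true, if_false] at h5 h6
      linarith
    have h2 : (d : Qb) ^ 2 ≠ 0 := pow_ne_zero _ (by exact_mod_cast hd.ne')
    refine (mul_eq_zero.1 ?_).resolve_left h2
    rw [← h1, mul_sum]
    exact sum_congr rfl fun i _ => by simp only [w]; ring
  refine ⟨c, hc0, fun i => by simpa using (hEk 10).symm ▸ hcR i, ?_⟩
  by_contra h0
  set ε := ‖ϖ‖ ^ N + ‖ϖ'‖ ^ N' with hε
  have hS : ‖∑ i, (c i : Qb) * z i‖ * ‖π‖ ≤ ε * E ^ 20 := by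
    have h1 : (∑ i, (c i : Qb) * z i) * π = ∑ i, (c i : Qb) * (α i * β i -
        (∑ a : Fin N, (f i).coeff a * ϖ ^ (a : ℕ)) * ∑ b : Fin N', (f' i).coeff b * ϖ' ^ (b : ℕ)) := by
      have h2 : ∑ i, (c i : Qb) * ((∑ a : Fin N, (f i).coeff a * ϖ ^ (a : ℕ)) *
          ∑ b : Fin N', (f' i).coeff b * ϖ' ^ (b : ℕ)) = 0 := by
        simp only [sum_mul_sum]
        simp only [mul_sum]
        rw [sum_comm]
        refine sum_eq_zero fun a _ => ?_
        rw [sum_comm]
        refine sum_eq_zero fun b _ => ?_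
        rw [← zero_mul (ϖ ^ (a : ℕ) * ϖ' ^ (b : ℕ)), ← hzero a b, sum_mul]
        exact sum_congr rfl fun i _ => by ring
      simp only [mul_sub, sum_sub_distrib, h2, sub_zero]
      rw [sum_mul]
      exact sum_congr rfl fun i _ => by rw [mul_assoc, (hall i).1]
    rw [← norm_mul, h1]
    refine (norm_sum_le _ _).trans ((sum_le_card_nsmul _ _ (E ^ 10 * (12 * E ^ 2 * ε))
      fun i _ => ?_).trans ?_)
    · obtain ⟨a1, a2⟩ := low_part N hϖ (hall i).2.1.l1_le (hall i).2.2.2.2.1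
      obtain ⟨b1, b2⟩ := low_part N' hϖ' (hall i).2.2.1.l1_le (hall i).2.2.2.2.2.1
      set p := ∑ a : Fin N, (f i).coeff a * ϖ ^ (a : ℕ)
      set p' := ∑ b : Fin N', (f' i).coeff b * ϖ' ^ (b : ℕ)
      have e1 : ‖ϖ'‖ ^ N' ≤ 1 := pow_le_one₀ (norm_nonneg _) hϖ'
      have e2 : 0 ≤ ‖ϖ'‖ ^ N' := by positivity
      have e3 : 0 ≤ ‖ϖ‖ ^ N := by positivity
      have b3 : ‖β i‖ ≤ 4 * E := by
        have := norm_sub_norm_le (β i) p'
        have := mul_le_of_le_one_right (by linarith : 0 ≤ 3 * E) e1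
        linarith
      rw [norm_mul, norm_intCast_Qb]
      refine mul_le_mul (hcR i) ?_ (norm_nonneg _) (by positivity)
      rw [show α i * β i - p * p' = (α i - p) * β i + p * (β i - p') by ring]
      refine (norm_add_le _ _).trans ?_
      rw [norm_mul, norm_mul]
      have c1 := mul_le_mul a2 b3 (norm_nonneg _) (by positivity)
      have c2 := mul_le_mul a1 b2 (norm_nonneg _) (by positivity)
      have c3 : 0 ≤ E ^ 2 * ‖ϖ'‖ ^ N' := by positivity
      rw [hε]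
      linarith
    · have hε0 : 0 ≤ ε := by positivity
      have h12 : 12 ≤ E ^ 7 := le_trans (by norm_num) (pow_le_pow_left₀ zero_le_two hE2 7)
      rw [nsmul_eq_mul]
      calc _ ≤ E * (E ^ 10 * (E ^ 7 * E ^ 2 * ε)) :=
            mul_le_mul hnE (by gcongr) (by positivity) (by linarith)
        _ = _ := by ring
  have hSz : Sz (∑ i, (c i : Qb) * z i) dz (E ^ 20 * Real.exp η) := by
    have h1 := Sz.sum (d := dz) univ (f := fun i => (c i : Qb) * z i)
      (B := fun _ => E ^ 10 * Real.exp η) fun i _ =>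
        ((Sz.int (c i)).mul (hall i).2.2.2.2.2.2.2).mono (by simp)
          (mul_le_mul_of_nonneg_right (hcR i) (Real.exp_pos _).le)
    refine h1.mono dvd_rfl ?_
    rw [sum_const, nsmul_eq_mul, ← mul_assoc]
    refine mul_le_mul_of_nonneg_right ?_ (Real.exp_pos _).le
    calc _ ≤ E * E ^ 10 := mul_le_mul_of_nonneg_right hnE (by positivity)
      _ = E ^ 11 := by ring
      _ ≤ _ := pow_le_pow_right₀ (by linarith) (by norm_num)
  have hL := liP_id _ dz _ H hH (fun g hg => by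
    rw [map_sum]
    exact sum_congr rfl fun i _ => by rw [map_mul, map_intCast, (hall i).2.2.2.2.2.2.1 g hg])
    hSz h0 hdz (one_le_mul_of_one_le_of_one_le (one_le_pow₀ (by linarith)) (Real.one_le_exp hη))
  have h1 : ((dz : ℝ) * (E ^ 20 * Real.exp η)) ^ H.index ≤
      Real.exp (H.index * (2 * η + 20 * lam)) := by
    rw [Real.exp_nat_mul]
    refine pow_le_pow_left₀ (by positivity) ?_ _
    rw [Real.exp_add, two_mul, Real.exp_add, show (20 : ℝ) = (20 : ℕ) by norm_num, hEk]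
    calc _ ≤ Real.exp η * (E ^ 20 * Real.exp η) := mul_le_mul_of_nonneg_right hdz' (by positivity)
      _ = _ := by ring
  rw [Real.exp_add, show (20 : ℝ) * lam = (20 : ℕ) * lam by norm_num, hEk] at hsm
  rw [show (20 : ℝ) * lam = (20 : ℕ) * lam by norm_num] at h1
  rw [RingHom.id_apply, inv_le_iff_one_le_mul₀ (by positivity)] at hL
  have h2 := mul_le_mul_of_nonneg_left h1 (norm_nonneg (∑ i, (c i : Qb) * z i))
  have h3 := mul_le_mul_of_nonneg_right hS
    (Real.exp_pos (H.index * (2 * η + (20 : ℕ) * lam))).le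
  have h4 := mul_le_mul_of_nonneg_right (hL.trans h2) (norm_nonneg π)
  have h5 := mul_le_mul_of_nonneg_right h2 (norm_nonneg π)
  linarith

end Pool.Agent.MP_09973c_nt.H14
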