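import Pool.Agent.MP_09973c_nt.H58.SpecF

/-!
Combinatorics of degree tables and the passage to full independence.
-/

set_option autoImplicit false

namespace Pool.Agent.MP_09973c_nt.H14

open Finset IntermediateField Classical Pool.Agent.MP_09973c_nt.H58

theorem pat1 : Pat1Stmt := by
  intro r J E L x i j δ Δ W hr hD h0 hd hiJ hji hij hlt hW
  have key : ∀ e ∈ range (2 * E + 1), ((range (i - 2 * E)).filter fun l => L + E ≤ l ∧
      δ (l + 1) (l - E + e + 1) = r ^ 2 * δ l (l - E + e)).card ≤ x + 2 * E := by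
    intro e he
    have he' : e ≤ 2 * E := by have := mem_range.1 he; omega
    by_cases ha : L + E ≤ i - 2 * E
    swap
    · rw [filter_eq_empty_iff.2 fun l hl h => by have := mem_range.1 hl; omega]
      simp
    have ind : ∀ n, L + E + n ≤ i - 2 * E →
        r ^ (n + ((range (L + E + n)).filter fun l => L + E ≤ l ∧
          δ (l + 1) (l - E + e + 1) = r ^ 2 * δ l (l - E + e)).card) * δ (L + E) (L + e) ≤
          δ (L + E + n) (L + n + e) := by
      intro n
      induction n with
      | zero =>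
        intro _
        rw [filter_eq_empty_iff.2 fun l hl h => by have := mem_range.1 hl; omega]
        simp
      | succ n ih =>
        intro hn
        have h1 := ih (by omega)
        have e1 : L + E + n - E + e = L + n + e := by omega
        have e2 : L + (n + 1) + e = L + n + e + 1 := by omega
        rw [← add_assoc, range_add_one, filter_insert, e1, e2]
        split_ifs with h
        · rw [card_insert_of_notMem (by simp), h.2]
          refine le_trans (le_of_eq ?_) (Nat.mul_le_mul_left _ h1)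
          ring
        · refine le_trans ?_ (hd (L + E + n) (by omega) (L + n + e) (by omega) (by omega) (by omega))
          refine le_trans (le_of_eq ?_) (Nat.mul_le_mul_left _ h1)
          ring
    obtain ⟨n, hn⟩ := Nat.exists_eq_add_of_le ha
    have h1 := ind n hn.ge
    rw [← hn] at h1
    set c := ((range (i - 2 * E)).filter fun l => L + E ≤ l ∧
      δ (l + 1) (l - E + e + 1) = r ^ 2 * δ l (l - E + e)).card
    have h2 : δ (i - 2 * E) (L + n + e) ≤ δ i j :=
      hD.mono _ _ _ _ (by omega) hiJ (by omega) (by omega)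
    have h3 : r ^ (L + E) ≤ Δ * δ (L + E) (L + e) :=
      (h0 _ (by omega)).trans (Nat.mul_le_mul_left _
        (hD.mono _ _ _ _ le_rfl (by omega) (by omega) (by omega)))
    have hΔ : 0 < Δ := by
      rcases Nat.eq_zero_or_pos Δ with h | h
      · rw [h, zero_mul] at h3
        exact absurd h3 (not_le.2 (by positivity))
      · exact h
    have h4 : r ^ (n + c + (L + E)) < r ^ (x + i) :=
      calc r ^ (n + c + (L + E)) = r ^ (n + c) * r ^ (L + E) := pow_add _ _ _
        _ ≤ r ^ (n + c) * (Δ * δ (L + E) (L + e)) := Nat.mul_le_mul_left _ h3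
        _ = Δ * (r ^ (n + c) * δ (L + E) (L + e)) := by ring
        _ ≤ Δ * δ i j := Nat.mul_le_mul_left _ (h1.trans h2)
        _ < Δ * (W * r ^ i) := Nat.mul_lt_mul_of_pos_left hlt hΔ
        _ = W * Δ * r ^ i := by ring
        _ ≤ r ^ x * r ^ i := Nat.mul_le_mul_right _ (hW.trans (Nat.pow_le_pow_left hr _))
        _ = r ^ (x + i) := (pow_add _ _ _).symm
    have := (Nat.pow_lt_pow_iff_right (by omega : 1 < r)).1 h4
    omega
  refine le_trans (card_le_card (t := (range (2 * E + 1)).biUnion fun e =>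
    (range (i - 2 * E)).filter fun l => L + E ≤ l ∧
      δ (l + 1) (l - E + e + 1) = r ^ 2 * δ l (l - E + e)) ?_) ?_
  · intro l hl
    obtain ⟨hl1, hl2, j', h1, h2, h3⟩ := mem_filter.1 hl
    refine mem_biUnion.2 ⟨j' + E - l, mem_range.2 (by omega), mem_filter.2 ⟨hl1, hl2, ?_⟩⟩
    rwa [show l - E + (j' + E - l) = j' by omega]
  · simpa using card_biUnion_le_card_mul _ _ _ key

theorem pat2 : Pat2Stmt := by
  intro r J E l₀ N δ hr hE hD hl₀ hJ hN hex hA hB
  have xy : ∀ l j, l₀ ≤ l → l ≤ l₀ + N → j ≤ l + E → l ≤ j + E → δ (l + 1) j = r * δ l j →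
      δ (l + 1) (j + 1) ≠ r * δ (l + 1) j := fun l j h1 h2 h3 h4 hx hy =>
    hex l h1 h2 ⟨j, h3, h4, by rw [hy, hx]; ring⟩
  have yx : ∀ l j, l₀ ≤ l → l ≤ l₀ + N → j ≤ l + E → l ≤ j + E → δ l (j + 1) = r * δ l j →
      δ (l + 1) (j + 1) ≠ r * δ l (j + 1) := fun l j h1 h2 h3 h4 hy hx =>
    hex l h1 h2 ⟨j, h3, h4, by rw [hx, hy]; ring⟩
  let M : ℕ → ℕ → Prop := fun l j => l₀ ≤ l ∧ l ≤ l₀ + N ∧ j ≤ l + E ∧ l ≤ j + E ∧
    δ (l + 1) j = r * δ l j ∧ δ l (j + 1) = r * δ l j
  have row : ∀ l, l₀ ≤ l → l ≤ l₀ + N → ∃ j, M l j := by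
    intro l h1 h2
    have hy : δ (l + 1) (l + E + 1) = r * δ (l + 1) (l + E) := by
      rcases hB (l + E) (by omega) (by omega) with h | ⟨l', h3, h4, -, h⟩
      · exact hD.an2 _ (by omega) _ _ (by omega) le_rfl h
      · exact hD.an2 _ (by omega) _ _ (by omega) h3.le h
    have hx : δ (l + 1) (l + E) ≠ r * δ l (l + E) := fun h =>
      xy l (l + E) h1 h2 le_rfl (by omega) h hy
    rcases hA l h1 (by omega) with h | ⟨j, h3, h4, h, h'⟩
    · exact absurd (hD.an1 _ (by omega) _ _ (by omega) le_rfl h) hx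
    · refine ⟨j, h1, h2, ?_, h4.le, h, h'⟩
      by_contra hc
      exact hx (hD.an1 _ (by omega) _ _ (by omega) h3.le h)
  have col : ∀ j, l₀ + E ≤ j → j + E ≤ l₀ + N → ∃ l, M l j := by
    intro j h1 h2
    have hx : δ (j + E + 1) (j + 1) = r * δ (j + E) (j + 1) := by
      rcases hA (j + E) (by omega) (by omega) with h | ⟨j', h3, h4, h, -⟩
      · exact hD.an1 _ (by omega) _ _ (by omega) le_rfl h
      · exact hD.an1 _ (by omega) _ _ (by omega) h3.le h
    have hy : δ (j + E) (j + 1) ≠ r * δ (j + E) j := fun h =>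
      yx (j + E) j (by omega) h2 (by omega) le_rfl h hx
    rcases hB j (by omega) (by omega) with h | ⟨l, h3, h4, h, h'⟩
    · exact absurd (hD.an2 _ (by omega) _ _ (by omega) le_rfl h) hy
    · have : l ≤ j + E := by
        by_contra hc
        exact hy (hD.an2 _ (by omega) _ _ (by omega) h3.le h')
      have : l < j + E := by
        rcases this.lt_or_eq with h5 | rfl
        · exact h5
        · exact absurd h' hy
      exact ⟨l, by omega, by omega, h4.le, by omega, h, h'⟩
  have mon : ∀ l j l' j', M l j → M l' j' → l < l' → j < j' := by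
    rintro l j l' j' ⟨a1, a2, a3, a4, a5, -⟩ ⟨b1, b2, b3, b4, -, b6⟩ h
    by_contra hc
    exact xy l j' a1 a2 (by omega) (by omega) (hD.an1 _ (by omega) _ _ (by omega) (by omega) a5)
      (hD.an2 _ (by omega) _ _ (by omega) (by omega) b6)
  have uni : ∀ l j j', M l j → M l j' → ¬ j < j' := by
    rintro l j j' ⟨a1, a2, a3, a4, -, a6⟩ ⟨b1, b2, b3, b4, b5, -⟩ h
    exact yx l j a1 a2 a3 a4 a6 (hD.an1 _ (by omega) _ _ (by omega) (by omega) b5)
  obtain ⟨j₁, hj₁⟩ := row (l₀ + 2 * E) (by omega) (by omega)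
  have b1 : j₁ ≤ l₀ + 3 * E := by have := hj₁.2.2.1; omega
  have b2 : l₀ + E ≤ j₁ := by have := hj₁.2.2.2.1; omega
  have all : ∀ t, t + 4 * E ≤ N → M (l₀ + 2 * E + t) (j₁ + t) := by
    intro t
    induction t with
    | zero => exact fun _ => hj₁
    | succ t ih =>
      intro ht
      have h1 := ih (by omega)
      obtain ⟨l, hl⟩ := col (j₁ + (t + 1)) (by omega) (by omega)
      obtain ⟨j, hj⟩ := row (l₀ + 2 * E + (t + 1)) (by omega) (by omega)
      have h2 := mon _ _ _ _ h1 hj (by omega)
      rcases lt_trichotomy l (l₀ + 2 * E + (t + 1)) with h | rfl | h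
      · rcases (show l ≤ l₀ + 2 * E + t by omega).lt_or_eq with h' | rfl
        · have := mon _ _ _ _ hl h1 h'
          omega
        · exact absurd (by omega) (uni _ _ _ h1 hl)
      · exact hl
      · have := mon _ _ _ _ hj hl h
        omega
  refine ⟨j₁, b1, b2, fun t ht => ?_⟩
  obtain ⟨a1, a2, a3, a4, a5, a6⟩ := all t ht
  exact ⟨yx _ _ a1 a2 a3 a4 a6, xy _ _ a1 a2 a3 a4 a5⟩

section Strong

variable {k Ω : Type} [Field k] [Field Ω] [Algebra k Ω] {r s J : ℕ} {S₀ : Set Ω} {I : Type}
  (T : I → Tw k r s J S₀) (A : Set I)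

/-- The generators up to the levels `a`. -/
def UU (a : I → ℕ) : Set Ω := S₀ ∪ ⋃ m ∈ A, lv (T m).w (a m)

theorem UU_congr {a a' : I → ℕ} (h : ∀ m ∈ A, a m = a' m) : UU T A a = UU T A a' := by
  unfold UU
  congr 1
  exact Set.iUnion₂_congr fun m hm => by rw [h m hm]

theorem mem_UU {a : I → ℕ} {m : I} (hm : m ∈ A) {l : ℕ} (hl : l ≤ a m) : (T m).w l ∈ UU T A a :=
  Or.inr (Set.mem_iUnion₂.2 ⟨m, hm, l, hl, rfl⟩)

theorem UU_update (a : I → ℕ) {m : I} (hm : m ∈ A) :
    UU T A (Function.update a m (a m + 1)) = insert ((T m).w (a m + 1)) (UU T A a) := by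
  apply Set.Subset.antisymm
  · rintro x (hx | hx)
    · exact Or.inr (Or.inl hx)
    · obtain ⟨m', hm', l, hl, rfl⟩ := Set.mem_iUnion₂.1 hx
      by_cases h : m' = m
      · subst h
        rw [Function.update_self] at hl
        rcases (Set.mem_Iic.1 hl).lt_or_eq with h | rfl
        · exact Or.inr (mem_UU T A hm' (by omega))
        · exact Or.inl rfl
      · rw [Function.update_of_ne h] at hl
        exact Or.inr (mem_UU T A hm' hl)
  · rintro x (rfl | hx | hx)
    · exact mem_UU T A hm (by simp)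
    · exact Or.inl hx
    · obtain ⟨m', hm', l, hl, rfl⟩ := Set.mem_iUnion₂.1 hx
      refine mem_UU T A hm' ((Set.mem_Iic.1 hl).trans ?_)
      by_cases h : m' = m
      · subst h; simp
      · rw [Function.update_of_ne h]

variable [Fintype I]

/-- The total number of levels. -/
noncomputable def ss (a : I → ℕ) : ℕ := ∑ m ∈ A.toFinset, a m

/-- The normalised degree. -/
noncomputable def ee (a : I → ℕ) : ℚ :=
  ((Fix k (UU T A a)).relIndex (Fix k S₀) : ℚ) / (r : ℚ) ^ ss A a

theorem ee_congr {a a' : I → ℕ} (h : ∀ m ∈ A, a m = a' m) : ee T A a = ee T A a' := by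
  unfold ee ss
  rw [UU_congr T A h, sum_congr rfl fun m hm => h m (Set.mem_toFinset.1 hm)]

theorem ss_update (a : I → ℕ) {m : I} (hm : m ∈ A) :
    ss A (Function.update a m (a m + 1)) = ss A a + 1 := by
  unfold ss
  rw [sum_update_of_mem (Set.mem_toFinset.2 hm), ← add_sum_erase _ a (Set.mem_toFinset.2 hm),
    sdiff_singleton_eq_erase]
  ring

variable [CharZero k] [IsAlgClosed Ω]

theorem ee_step (hr : 2 ≤ r) (hf : S₀.Finite) (hS : Algebra.IsAlgebraic (adjoin k S₀) Ω)
    (a : I → ℕ) {m : I} (hm : m ∈ A) (ha : a m < J) :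
    ee T A (Function.update a m (a m + 1)) ≤ ee T A a ∧
      (ee T A a ≤ ee T A (Function.update a m (a m + 1)) ↔
        PowInd k (UU T A a) ((T m).w (a m + 1)) r) := by
  have hz : (T m).w (a m + 1) ^ r ∈ adjoin k (UU T A a) := by
    rw [(T m).hw _ ha]
    exact add_mem (pow_mem (subset_adjoin k _ (mem_UU T A hm le_rfl)) _) (IntermediateField.algebraMap_mem _ _)
  have h1 := (relIndex_root (by omega) hz).2
  have h2 : (Fix k (UU T A a)).relIndex (Fix k S₀) ≠ 0 :=
    relIndex_ne_zero_of_finite hS (hf.union (Set.Finite.biUnion (Set.toFinite A)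
      fun _ _ => (Set.finite_Iic _).image _))
  have h3 : (0 : ℚ) < ((Fix k (UU T A a)).relIndex (Fix k S₀) : ℚ) / (r : ℚ) ^ ss A a := by
    have := Nat.pos_of_ne_zero h2
    have : 0 < r := by omega
    positivity
  have hr' : (0 : ℚ) < r := by exact_mod_cast (by omega : 0 < r)
  have h4 : ee T A (Function.update a m (a m + 1)) = ee T A a *
      (((Fix k (insert ((T m).w (a m + 1)) (UU T A a))).relIndex (Fix k (UU T A a)) : ℚ) / r) := by
    unfold ee
    rw [UU_update T A a hm, ss_update A a hm, ← Subgroup.relIndex_mul_relIndex _ _ _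
      (Fix_anti (Set.subset_insert _ _)) (Fix_anti (S' := UU T A a) Set.subset_union_left)]
    push_cast
    field_simp
    ring
  rw [h4, powInd_iff (isAlgebraic_mono (S' := UU T A a)
    (Set.subset_union_left.trans (subset_adjoin k (UU T A a))) hS)]
  refine ⟨mul_le_of_le_one_right h3.le ((div_le_one hr').2 (by exact_mod_cast h1)), ?_⟩
  rw [le_mul_iff_one_le_right (a := ee T A a) h3, one_le_div hr']
  exact Nat.cast_le

theorem ee_anti (hr : 2 ≤ r) (hf : S₀.Finite) (hS : Algebra.IsAlgebraic (adjoin k S₀) Ω)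
    (a' : I → ℕ) (ha' : ∀ m ∈ A, a' m ≤ J) (n : ℕ) :
    ∀ a : I → ℕ, (∀ m ∈ A, a m ≤ a' m) → ss A a' = ss A a + n → ee T A a' ≤ ee T A a := by
  induction n with
  | zero =>
    intro a ha h
    refine (ee_congr T A fun m hm => ?_).ge
    exact (sum_eq_sum_iff_of_le fun m hm => ha m (Set.mem_toFinset.1 hm)).1 h.symm m
      (Set.mem_toFinset.2 hm)
  | succ n ih =>
    intro a ha h
    obtain ⟨m, hm, hlt⟩ := exists_lt_of_sum_lt (show ss A a < ss A a' by omega)
    have hm := Set.mem_toFinset.1 hm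
    refine (ih _ (fun m' hm' => ?_) (by rw [ss_update A a hm]; omega)).trans
      (ee_step T A hr hf hS a hm (hlt.trans_le (ha' m hm))).1
    by_cases h : m' = m
    · subst h; simpa using hlt
    · rw [Function.update_of_ne h]; exact ha m' hm'

theorem ee_le (hr : 2 ≤ r) (hf : S₀.Finite) (hS : Algebra.IsAlgebraic (adjoin k S₀) Ω)
    {a a' : I → ℕ} (ha' : ∀ m ∈ A, a' m ≤ J) (ha : ∀ m ∈ A, a m ≤ a' m) :
    ee T A a' ≤ ee T A a := by
  obtain ⟨n, hn⟩ := Nat.exists_eq_add_of_le
    (show ss A a ≤ ss A a' from sum_le_sum fun m hm => ha m (Set.mem_toFinset.1 hm))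
  exact ee_anti T A hr hf hS a' ha' n a ha hn

end Strong

theorem strong : StrongStmt := by
  intro k Ω _ _ _ _ _ _ r s J J₀ Δ S₀ hr hB I _ T A h m hm i hi hiJ
  have hS : Algebra.IsAlgebraic (adjoin k S₀) Ω :=
    isAlgebraic_mono ((Set.singleton_subset_iff.2 (T m).hb).trans (subset_adjoin k _))
      (hB.tr _ (T m).hb).2
  have inner : ∀ l, J₀ ≤ l → l < J → ∀ B : Finset I, (∀ m' ∈ B, m' ∈ A) →
      ee T A (fun _ => l) ≤ ee T A fun m' => if m' ∈ B then l + 1 else l := by
    intro l h1 h2 B
    induction B using Finset.induction_on with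
    | empty => simp
    | insert m₀ B hm₀ ih =>
      intro hBA
      have hm₀A := hBA m₀ (mem_insert_self _ _)
      refine (ih fun m' hm' => hBA m' (mem_insert_of_mem hm')).trans ?_
      have h3 := (ee_step T A hr hB.fin hS (fun m' => if m' ∈ B then l + 1 else l) hm₀A
        (by simpa [hm₀] using h2)).2.2 (by
          simp only [if_neg hm₀]
          refine (h m₀ hm₀A l h1 h2).mono (Set.Subset.trans ?_ (subset_adjoin k _))
          rintro x (hx | hx)
          · exact Or.inl (Or.inl hx)
          · obtain ⟨m', hm', l', hl', rfl⟩ := Set.mem_iUnion₂.1 hx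
            by_cases e : m' = m₀
            · subst e
              exact Or.inl (Or.inr ⟨l', by simpa [hm₀] using hl', rfl⟩)
            · refine Or.inr (Set.mem_iUnion₂.2 ⟨m', ⟨hm', e⟩, l', ?_, rfl⟩)
              refine (Set.mem_Iic.1 hl').trans ?_
              dsimp only
              split_ifs <;> omega)
      refine h3.trans (ee_congr T A fun m' _ => ?_).le
      by_cases e : m' = m₀
      · subst e; simp [hm₀]
      · simp [e]
  have outer : ∀ n, J₀ + n ≤ J → ee T A (fun _ => J₀) ≤ ee T A fun _ => J₀ + n := by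
    intro n
    induction n with
    | zero => exact fun _ => le_rfl
    | succ n ih =>
      intro hn
      refine (ih (by omega)).trans ((inner _ (by omega) (by omega) A.toFinset
        fun _ hm' => Set.mem_toFinset.1 hm').trans (ee_congr T A fun m' hm' => ?_).le)
      simp [hm', add_assoc]
  let a : I → ℕ := fun m' => if m' = m then i else J
  have ham : a m = i := by simp [a]
  have h1 : ee T A a ≤ ee T A (Function.update a m (a m + 1)) := by
    refine (ee_le T A hr hB.fin hS (a := fun _ => J₀) (fun m' _ => ?_) fun m' _ => ?_).trans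
      ((outer (J - J₀) (by omega)).trans
        (ee_le T A hr hB.fin hS (fun _ _ => by omega) fun m' _ => ?_))
    · simp only [a]; split_ifs <;> omega
    · simp only [a]; split_ifs <;> omega
    · by_cases e : m' = m
      · subst e; rw [Function.update_self, ham]; omega
      · rw [Function.update_of_ne e]; simp only [a, if_neg e]; omega
  have h2 := (ee_step T A hr hB.fin hS a hm (by omega)).2.1 h1
  rw [ham] at h2
  refine h2.mono (Set.Subset.trans ?_ (subset_adjoin k _))
  rintro x ((hx | ⟨l, hl, rfl⟩) | hx)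
  · exact Or.inl hx
  · exact mem_UU T A hm (by rw [ham]; exact hl)
  · obtain ⟨m', hm', l, hl, rfl⟩ := Set.mem_iUnion₂.1 hx
    exact mem_UU T A hm'.1 (by simp only [a, if_neg (show m' ≠ m from hm'.2)]; exact hl)

end Pool.Agent.MP_09973c_nt.H14
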